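import Pool.Agent.Lib.MP_3248c9_gt.Flat

/-!
# Chen's biharmonic conjecture for flat surfaces, in every codimension

Every biharmonic isometric immersion of an open subset of the Euclidean plane into `E^m`
(`m` arbitrary) is minimal, indeed locally affine.
-/

set_option autoImplicit false

open Metric Filter Topology Complex
open scoped ContDiff

namespace Pool.Agent.Results.MP_3248c9_gt.FlatSurfaces

open Pool.Agent.Lib.MP_3248c9_gt

theorem Lap_congr {x y : ℂ → ℝ} {z : ℂ} (h : x =ᶠ[𝓝 z] y) : Lap x z = Lap y z := by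
  have h1 : ∀ v : ℂ, dd v x =ᶠ[𝓝 z] dd v y := by
    intro v
    have := h.fderiv (𝕜 := ℝ)
    filter_upwards [this] with w hw
    unfold dd; rw [hw]
  have h2 : ∀ v : ℂ, dd v (dd v x) z = dd v (dd v y) z := by
    intro v
    unfold dd at h1 ⊢
    rw [(h1 v).fderiv_eq]
  unfold Lap
  rw [h2, h2]

theorem MM_congr {m : ℕ} {u v : EuclideanSpace ℝ (Fin 2) → EuclideanSpace ℝ (Fin m)}
    {y : EuclideanSpace ℝ (Fin 2)} (h : u =ᶠ[𝓝 y] v) : MM u y = MM v y := by
  unfold MM
  refine Finset.sum_congr rfl fun j _ => ?_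
  have h1 : (fun y' => fderiv ℝ u y' (EuclideanSpace.single j (1 : ℝ))) =ᶠ[𝓝 y]
      fun y' => fderiv ℝ v y' (EuclideanSpace.single j (1 : ℝ)) := by
    have := h.fderiv (𝕜 := ℝ)
    filter_upwards [this] with w hw
    rw [hw]
  rw [h1.fderiv_eq]

/-- The `i`-th partial derivative of `u`. -/
noncomputable def pd {n m : ℕ} (i : Fin n) (u : EuclideanSpace ℝ (Fin n) → EuclideanSpace ℝ (Fin m))
    (x : EuclideanSpace ℝ (Fin n)) : EuclideanSpace ℝ (Fin m) :=
  fderiv ℝ u x (EuclideanSpace.single i (1 : ℝ))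

/-- The matrix of the metric induced by `f` in the standard coordinates. -/
noncomputable def inducedMetric {n m : ℕ} (f : EuclideanSpace ℝ (Fin n) → EuclideanSpace ℝ (Fin m))
    (x : EuclideanSpace ℝ (Fin n)) : Matrix (Fin n) (Fin n) ℝ :=
  Matrix.of fun i j => inner ℝ (pd i f x) (pd j f x)

/-- The Laplace-Beltrami operator of the metric `g`, applied componentwise to an
`ℝ^m`-valued map. -/
noncomputable def laplaceBeltrami {n m : ℕ} (g : EuclideanSpace ℝ (Fin n) → Matrix (Fin n) (Fin n) ℝ)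
    (u : EuclideanSpace ℝ (Fin n) → EuclideanSpace ℝ (Fin m)) (x : EuclideanSpace ℝ (Fin n)) :
    EuclideanSpace ℝ (Fin m) :=
  (Real.sqrt (g x).det)⁻¹ •
    ∑ i, pd i (fun y => Real.sqrt (g y).det • ∑ j, (g y)⁻¹ i j • pd j u y) x

/-- `f` is smooth on the open set `U`. -/
def SmoothOn {n m : ℕ} (f : EuclideanSpace ℝ (Fin n) → EuclideanSpace ℝ (Fin m))
    (U : Set (EuclideanSpace ℝ (Fin n))) : Prop :=
  IsOpen U ∧ ContDiffOn ℝ ∞ f U

/-- Flat biharmonic surfaces in `E^m` are minimal, indeed locally affine. -/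
theorem result (m : ℕ) (U : Set (EuclideanSpace ℝ (Fin 2)))
    (f : EuclideanSpace ℝ (Fin 2) → EuclideanSpace ℝ (Fin m)) (hf : SmoothOn f U)
    (hg1 : ∀ x ∈ U, inducedMetric f x = 1)
    (hbi : ∀ x ∈ U, laplaceBeltrami (inducedMetric f) (laplaceBeltrami (inducedMetric f) f) x = 0) :
    ∀ x ∈ U, laplaceBeltrami (inducedMetric f) f x = 0 ∧ ∀ i j, pd i (pd j f) x = 0 := by
  set g := inducedMetric f with hgdef
  have hg : ∀ x i j, g x i j =
          inner ℝ (fderiv ℝ f x (EuclideanSpace.single i (1 : ℝ)))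
            (fderiv ℝ f x (EuclideanSpace.single j (1 : ℝ))) := fun x i j => rfl
  set L : (EuclideanSpace ℝ (Fin 2) → EuclideanSpace ℝ (Fin m)) →
              EuclideanSpace ℝ (Fin 2) → EuclideanSpace ℝ (Fin m) := laplaceBeltrami g with hLdef
  have hL : ∀ u x, L u x =
          (Real.sqrt (g x).det)⁻¹ •
            ∑ i, fderiv ℝ (fun y => Real.sqrt (g y).det •
                    ∑ j, (g y)⁻¹ i j • fderiv ℝ u y (EuclideanSpace.single j (1 : ℝ)))
                  x (EuclideanSpace.single i (1 : ℝ)) := fun u x => rfl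
  obtain ⟨hU, hf⟩ := hf
  have hsm : ∀ y ∈ U, ContDiffAt ℝ ∞ f y := fun y hy => hf.contDiffAt (hU.mem_nhds hy)
  -- on `U` the operator `L` is the flat Laplacian
  have hLM : ∀ u, ∀ y ∈ U, L u y = MM u y := by
    intro u y hy
    rw [hL, hg1 y hy]
    simp only [Matrix.det_one, Real.sqrt_one, inv_one, one_smul]
    unfold MM
    refine Finset.sum_congr rfl fun i _ => ?_
    have h1 : (fun y => Real.sqrt (g y).det •
        ∑ j, (g y)⁻¹ i j • fderiv ℝ u y (EuclideanSpace.single j (1 : ℝ)))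
        =ᶠ[𝓝 y] fun y' => fderiv ℝ u y' (EuclideanSpace.single i (1 : ℝ)) := by
      filter_upwards [hU.mem_nhds hy] with y' hy'
      rw [hg1 y' hy']
      simp only [Matrix.det_one, Real.sqrt_one, one_smul, inv_one]
      rw [Finset.sum_eq_single i]
      · simp
      · intro j _ hj
        rw [Matrix.one_apply_ne (Ne.symm hj), zero_smul]
      · intro h; exact absurd (Finset.mem_univ i) h
    rw [h1.fderiv_eq]
  have hMM : ∀ y ∈ U, MM (MM f) y = 0 := by
    intro y hy
    rw [← hbi y hy, hLM _ y hy]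
    refine MM_congr ?_
    filter_upwards [hU.mem_nhds hy] with y' hy'
    exact (hLM f y' hy').symm
  -- the differential is locally constant
  have hloc : ∀ p ∈ U, fderiv ℝ f =ᶠ[𝓝 p] fun _ => fderiv ℝ f p := by
    intro p hp
    obtain ⟨r, hr, hball⟩ := Metric.isOpen_iff.1 hU p hp
    have hin : ∀ z ∈ ball (0 : ℂ) r, p + eC z ∈ U := by
      intro z hz
      apply hball
      rw [mem_ball, dist_eq_norm, add_sub_cancel_left, eC.norm_map]
      simpa using hz
    have h0D : (0 : ℂ) ∈ ball (0 : ℂ) r := by simpa using hr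
    set x : Fin m → ℂ → ℝ := fun i z => f (p + eC z) i with hx
    have hxs : ∀ i, ∀ z ∈ ball (0 : ℂ) r, ContDiffAt ℝ ∞ (x i) z := fun i z hz =>
      smooth_comp (hsm _ (hin z hz)) i
    have hlap : ∀ i, ∀ z ∈ ball (0 : ℂ) r, Lap (Lap (x i)) z = 0 := by
      intro i z hz
      have h1 : Lap (x i) =ᶠ[𝓝 z] fun z => (MM f) (p + eC z) i := by
        filter_upwards [isOpen_ball.mem_nhds hz] with w hw
        exact Lap_comp (fun z hz => hsm _ (hin z hz)) i w hw
      rw [Lap_congr h1, Lap_comp (fun z hz => MM_smooth (hsm _ (hin z hz))) i z hz,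
        hMM _ (hin z hz)]
      rfl
    have hd : ∀ (w : ℂ) (i : Fin m), ∀ z ∈ ball (0 : ℂ) r,
        dd w (x i) z = (fderiv ℝ f (p + eC z) (eC w)) i := fun w i z hz =>
      dd_comp ((hsm _ (hin z hz)).differentiableAt (by simp)) w i
    have hinner : ∀ (w w' : ℂ), ∀ z ∈ ball (0 : ℂ) r, ∑ i, dd w (x i) z * dd w' (x i) z
        = inner ℝ (fderiv ℝ f (p + eC z) (eC w)) (fderiv ℝ f (p + eC z) (eC w')) := by
      intro w w' z hz
      rw [PiLp.inner_apply]
      refine Finset.sum_congr rfl fun i _ => ?_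
      rw [hd w i z hz, hd w' i z hz]
      simp [mul_comm]
    have hconst := flat_ball hr hxs hlap ?_ ?_ ?_
    · -- conclude
      have hz : ∀ q ∈ ball p r, fderiv ℝ f q = fderiv ℝ f p := by
        intro q hq
        obtain ⟨z, hz⟩ : ∃ z : ℂ, q = p + eC z := ⟨eC.symm (q - p), by simp⟩
        have hzb : z ∈ ball (0 : ℂ) r := by
          rw [hz, mem_ball, dist_eq_norm, add_sub_cancel_left, eC.norm_map] at hq
          simpa using hq
        have h1 : fderiv ℝ f q (EuclideanSpace.single 0 (1 : ℝ))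
            = fderiv ℝ f p (EuclideanSpace.single 0 (1 : ℝ)) := by
          ext i
          have h2 := (hconst i z hzb).1
          rw [hd 1 i z hzb, hd 1 i 0 h0D, eC_one, map_zero, add_zero, ← hz] at h2
          exact h2
        have h1' : fderiv ℝ f q (EuclideanSpace.single 1 (1 : ℝ))
            = fderiv ℝ f p (EuclideanSpace.single 1 (1 : ℝ)) := by
          ext i
          have h2 := (hconst i z hzb).2
          rw [hd I i z hzb, hd I i 0 h0D, eC_I, map_zero, add_zero, ← hz] at h2
          exact h2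
        ext v : 1
        have hv : v = v 0 • EuclideanSpace.single 0 (1 : ℝ)
            + v 1 • EuclideanSpace.single 1 (1 : ℝ) := by
          ext k
          fin_cases k <;> simp
        rw [hv, map_add, map_add, map_smul, map_smul, map_smul, map_smul, h1, h1']
      filter_upwards [ball_mem_nhds p hr] with q hq
      exact hz q hq
    · intro z hz
      rw [hinner 1 1 z hz, eC_one, ← hg, hg1 _ (hin z hz)]; simp
    · intro z hz
      rw [hinner I I z hz, eC_I, ← hg, hg1 _ (hin z hz)]; simp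
    · intro z hz
      rw [hinner 1 I z hz, eC_one, eC_I, ← hg, hg1 _ (hin z hz)]; simp
  intro p hp
  have h1 : ∀ j : Fin 2, (fun y' => fderiv ℝ f y' (EuclideanSpace.single j (1 : ℝ)))
      =ᶠ[𝓝 p] fun _ => fderiv ℝ f p (EuclideanSpace.single j (1 : ℝ)) := by
    intro j
    filter_upwards [hloc p hp] with q hq
    rw [hq]
  have h2 : ∀ i j : Fin 2, pd i (pd j f) p = 0 := by
    intro i j
    have h3 : pd i (pd j f) p
        = fderiv ℝ (fun y' => fderiv ℝ f y' (EuclideanSpace.single j (1 : ℝ))) p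
          (EuclideanSpace.single i (1 : ℝ)) := rfl
    rw [h3, (h1 j).fderiv_eq]
    simp
  refine ⟨?_, h2⟩
  rw [hLM f p hp]
  unfold MM
  exact Finset.sum_eq_zero fun j _ => h2 j j

end Pool.Agent.Results.MP_3248c9_gt.FlatSurfaces
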