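import Pool.Agent.Lib.MP_3248c9_gt.Lag.Main

/-!
# Chen's biharmonic conjecture for Lagrangian surfaces

Every biharmonic Lagrangian surface in `C^2 = E^4` is minimal.
-/

set_option autoImplicit false

open scoped ContDiff

namespace Pool.Agent.Results.MP_3248c9_gt.LagrangianSurfaces

open Pool.Agent.Helix (pd inducedMetric laplaceBeltrami)
open Pool.Agent.Lib.MP_3248c9_gt.Lag

/-- Biharmonic Lagrangian surfaces in `C^2` are minimal. -/
theorem result (U : Set (EuclideanSpace ℝ (Fin 2)))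
    (f : EuclideanSpace ℝ (Fin 2) → EuclideanSpace ℝ (Fin 4)) (hU : IsOpen U)
    (hf : ContDiffOn ℝ ∞ f U) (himm : ∀ x ∈ U, Function.Injective (fderiv ℝ f x))
    (J : EuclideanSpace ℝ (Fin 4) →ₗ[ℝ] EuclideanSpace ℝ (Fin 4)) (hJ : ∀ y, J (J y) = -y)
    (hJi : ∀ y z, inner ℝ (J y) (J z) = inner ℝ y z)
    (hlag : ∀ x ∈ U, inner ℝ (J (pd 0 f x)) (pd 1 f x) = 0)
    (hbi : ∀ x ∈ U, laplaceBeltrami (inducedMetric f)
      (laplaceBeltrami (inducedMetric f) f) x = 0) :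
    ∀ x ∈ U, laplaceBeltrami (inducedMetric f) f x = 0 := by
  have h : LagS J.toContinuousLinearMap U f := ⟨⟨hU, hf, himm⟩, ⟨hJi, hJ⟩, hlag⟩
  exact h.minimal hbi

end Pool.Agent.Results.MP_3248c9_gt.LagrangianSurfaces
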