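import Pool.Agent.Lib.MP_3248c9_gt.Pn.Main
import Pool.Agent.Lib.MP_3248c9_gt.Hy.Geo

/-!
# Chen's biharmonic conjecture for submanifolds with parallel normalised mean curvature vector

Every biharmonic submanifold of a Euclidean space (of any dimension and codimension, with no
completeness or curvature condition) whose unit mean curvature vector is parallel in the normal
bundle is minimal. Every hypersurface has this property, so all hypersurfaces are covered (the
frozen statement `S12989` with `m = n + 1`).
-/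

set_option autoImplicit false

namespace Pool.Agent.Results.MP_3248c9_gt.ParallelMeanCurvature

open Pool.Agent.Lib.MP_3248c9_gt.Hy
open scoped ContDiff

theorem result (n m : ℕ) (U : Set (EuclideanSpace ℝ (Fin n)))
    (f : EuclideanSpace ℝ (Fin n) → EuclideanSpace ℝ (Fin m)) (hU : IsOpen U)
    (hf : ContDiffOn ℝ ∞ f U) (himm : ∀ x ∈ U, Function.Injective (fderiv ℝ f x))
    (hbi : ∀ x ∈ U, laplaceBeltrami (inducedMetric f)
      (laplaceBeltrami (inducedMetric f) f) x = 0)
    (hpar : m = n + 1 ∨ ∀ x ∈ U, laplaceBeltrami (inducedMetric f) f x ≠ 0 →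
      ∀ v : EuclideanSpace ℝ (Fin n), ∃ w : EuclideanSpace ℝ (Fin n),
        fderiv ℝ (fun y => ‖laplaceBeltrami (inducedMetric f) f y‖⁻¹ •
          laplaceBeltrami (inducedMetric f) f y) x v = fderiv ℝ f x w) :
    ∀ x ∈ U, laplaceBeltrami (inducedMetric f) f x = 0 := by
  rcases hpar with rfl | hpar
  · exact Imc.minimal (f := f) ⟨hU, hf, himm⟩ hbi
  · refine Pool.Agent.Lib.MP_3248c9_gt.Pn.minimalP (f := f) ⟨hU, hf, himm⟩ ?_ hbi
    intro x hx hne v
    obtain ⟨w, hw⟩ := hpar x hx hne v
    exact ⟨w, hw.symm⟩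

end Pool.Agent.Results.MP_3248c9_gt.ParallelMeanCurvature
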