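import Pool.Agent.Helix.Main

/-!
# Chen's biharmonic conjecture for surfaces invariant under a one-parameter group of similarities

Every biharmonic surface in `E^m` (`m` arbitrary) which is invariant under a one-parameter group
of similarities of `E^m` (rotations in several planes, screw motions, spiral similarities, ...)
is minimal.
-/

set_option autoImplicit false

open scoped ContDiff

namespace Pool.Agent.Results.MP_3248c9_gt.SimilarityInvariant

open Pool.Agent.Helix

theorem result (m : ℕ) (U : Set (EuclideanSpace ℝ (Fin 2)))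
    (f : EuclideanSpace ℝ (Fin 2) → EuclideanSpace ℝ (Fin m)) (hU : IsOpen U)
    (hf : ContDiffOn ℝ ∞ f U) (himm : ∀ x ∈ U, Function.Injective (fderiv ℝ f x))
    (M : EuclideanSpace ℝ (Fin m) →L[ℝ] EuclideanSpace ℝ (Fin m)) (w : EuclideanSpace ℝ (Fin m))
    (c : ℝ) (hM : ∀ y z, inner ℝ (M y) z + inner ℝ y (M z) = 2 * c * inner ℝ y z)
    (hinv : ∀ x ∈ U, pd 1 f x = M (f x) + w)
    (hbi : ∀ x ∈ U, laplaceBeltrami (inducedMetric f)
      (laplaceBeltrami (inducedMetric f) f) x = 0) :
    ∀ x ∈ U, laplaceBeltrami (inducedMetric f) f x = 0 :=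
  surf_minimal (M := M) (c := c) (w := w) ⟨hU, hf, himm, hM, hinv⟩ hbi

end Pool.Agent.Results.MP_3248c9_gt.SimilarityInvariant
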